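import Mathlib
import Pool.Agent.H194R3.CM.Defs
import Pool.Agent.H204R3.GP.Defs
import Pool.Agent.H204R3.GP.MTDefs
import Pool.Agent.H204R3.GP.TowerSigDefs
import Pool.Agent.H204R3.GP.TowerFamily
import Pool.Agent.H204R3.GP.MT
import Pool.Agent.H204R3.GP.TowerSig

/-!
# The Mumford-Tate conjecture for abelian varieties with one good Frobenius element, by signatures
over CM subfields

Let `A` be an abelian variety over a number field `K` (or a finitely generated subfield of the
complex numbers), of any dimension and with arbitrary endomorphisms.  Suppose that `A` has good
reduction at ONE place `v` (with residue field of `p ^ a` elements) such that the characteristic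
polynomial of the Frobenius element is the product of the minimal polynomials of Weil numbers `π i`
with the following properties.

* `E i = ℚ(π i)` is a CM field which contains a CM field `F i` with `[E i : F i] = r i ^ k i`, where
  `r i` is a prime number which does not divide the degree of the Galois closure of `F i`.
* The signature of `π i` over `F i` is nondegenerate modulo `r i`: let `A(σ)`, for a `p`-adic
  embedding `σ` of `F i`, be the sum of the (normalised) slopes of the conjugates of `π i` over `σ`
  (if `A` is ordinary at `v`, the number of the conjugates over `σ` which are units minus the number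
  of those which are not); the translates of `A` modulo `r i` under the Galois group satisfy no
  antisymmetric linear relation.  If `F i` is an imaginary quadratic field this only says that
  `A(σ)` is not divisible by `r i`.
* Embeddings of different fields `E i` are flipped: some automorphism of the complex numbers fixes
  one of them and conjugates the other one.

There is no condition on the Galois group of `E i` over `F i`, and no condition on the slopes.

Then, for all primes `ℓ` not divisible by `v`, all Tate classes in the tensor powers of `H^1` (and
so in the cohomology of all powers of `A`) are linear combinations of Hodge classes, and even of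
products of Hodge classes of degree two.  Together with the theorem of Deligne (Hodge classes are
Tate classes) this is the equality of the Mumford-Tate group (over `ℚ_ℓ`) and of the connected
component of the `ℓ`-adic monodromy group: both are reductive (Faltings), so that they are determined
by their invariants in the spaces `(H^1)^{⊗ 2 m}(m)`.  So the Mumford-Tate conjecture holds for all
cohomology groups `H^i(A ^ n)`, and the Hodge and the Tate conjecture hold for all powers of `A`.

In the Lean statement `W` is `H_1(A, ℚ)`, `T` the tangent space at the origin and `per : W → T` the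
inclusion, `ω₀` is the form given by a polarization; `V` is the rational Tate module with the
comparison map `comp : W → V`, the action `ρ` of the Galois group and the Weil pairing `ω`; `χ` is
the cyclotomic character and `γ` the Frobenius element at `v`.  The hypotheses `hss` and `hF` are the
theorems of Faltings.

The proof.  A multiplicative relation between the conjugates of the Weil numbers gives, by the
slopes, a relation between all translates of an integral vector on the set of the embeddings.  Reduce
it modulo `r i` and take a nonzero vector fixed by a Sylow subgroup of the Galois group; this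
subgroup acts trivially on the embeddings of `F i` and transitively on the embeddings of `E i` over a
fixed embedding of `F i`, so that one gets a relation modulo `r i` between the translates of the
signature.  So there are no relations besides `π * conj π = q`, and the Lie algebra of the
endomorphisms of `V` that kill all Tate classes contains a Cartan subalgebra of the symplectic Lie
algebra; over a finite extension of `ℚ_ℓ` it is a product of symplectic and general linear Lie
algebras, and the first fundamental theorems for these show that the Tate classes are generated in
degree two.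
-/

namespace Pool.Agent.Results.MP_c1bb77_ag.OneFrobeniusTowers

open NumberField Module Pool.Agent.H204R3.GP

/-- The Mumford-Tate conjecture, if the characteristic polynomial of one element `γ` of the Galois
group is the product of the minimal polynomials of Weil numbers `π i` in CM fields `E i` of degree
`r i ^ k i` over CM fields `F i`, with signatures which are nondegenerate modulo `r i`. -/
theorem result (ℓ p : ℕ) [Fact ℓ.Prime] [Fact p.Prime] (a : ℕ) (ha : 0 < a)
    {ι : Type} [Fintype ι] (F E : ι → Type) [∀ i, Field (F i)] [∀ i, NumberField (F i)]
    [∀ i, IsCMField (F i)] [∀ i, Field (E i)] [∀ i, NumberField (E i)] [∀ i, IsCMField (E i)]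
    [∀ i, Algebra (F i) (E i)] (r k : ι → ℕ) (π : ∀ i, E i) (hπ : TowerFamily p a F E r k π)
    -- the complex torus `A(ℂ)` with a polarization
    {W T : Type} [AddCommGroup W] [Module ℚ W] [AddCommGroup T] [Module ℂ T] (per : W →+ T)
    (ω₀ : W →ₗ[ℚ] W →ₗ[ℚ] ℚ) (hω₀ : IsHodgeBilinear per ω₀)
    -- the Tate module
    {V : Type} [AddCommGroup V] [Module ℚ_[ℓ] V] [FiniteDimensional ℚ_[ℓ] V] (comp : W →+ V)
    {Γ : Type} [Group Γ] (ρ : Representation ℚ_[ℓ] Γ V) (χ : Γ →* ℚ_[ℓ])
    (ω : V →ₗ[ℚ_[ℓ]] V →ₗ[ℚ_[ℓ]] ℚ_[ℓ]) (halt : ∀ v, ω v v = 0)
    (hnondeg : ∀ u, (∀ v, ω v u = 0) → u = 0)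
    (hω : ∀ s u v, ω (ρ s u) (ρ s v) = χ s * ω u v)
    (hωω : ∀ x y, ω (comp x) (comp y) = ((ω₀ x y : ℚ) : ℚ_[ℓ]))
    (hss : FiniteIndexSemisimple ρ) (hF : FaltingsEnd per comp ρ)
    (γ : Γ) (hχ : χ γ = (p : ℚ_[ℓ]) ^ a)
    (hγ : (ρ γ).charpoly = ∏ i, (minpoly ℚ (π i)).map (algebraMap ℚ ℚ_[ℓ])) :
    MumfordTateStrong per comp ρ χ := by
  have hss' : ∀ Δ : Subgroup Γ, Δ.FiniteIndex → SemiUnder (ρ '' (Δ : Set Γ)) := by
    intro Δ hΔ U hU
    obtain ⟨U', h1, h2⟩ := hss Δ hΔ U (fun s hs u hu => hU _ ⟨s, hs, rfl⟩ u hu)
    refine ⟨U', ?_, h2⟩
    rintro _ ⟨s, hs, rfl⟩ u hu
    exact h1 s hs u hu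
  have hnd' : ∀ u, (∀ v, ω u v = 0) → u = 0 := by
    intro u hu
    apply hnondeg
    intro v
    have h1 := halt (u + v)
    simp only [map_add, LinearMap.add_apply, halt, hu, zero_add, add_zero] at h1
    exact h1
  obtain ⟨L, hL1, hL2, j, h⟩ := Pool.Agent.H204R3.CM.exists_galois E
  let jp : L →ₐ[ℚ] PadicAlgCl p := IsAlgClosed.lift
  have hneat := neat_of_tower (F := F) j h (jp : L →+* PadicAlgCl p) hπ.weil r k hπ.prime
    hπ.degree
    (fun i => Pool.Agent.H977R3.CM.noOrder_of_closure (F i) (r i) (hπ.prime i) (hπ.closure i))
    hπ.signature hπ.flip
  exact mumfordTate_of per comp ρ χ ω hnd' hω ω₀ hω₀ hωω hF fun m φ hφ => tate_of_neat ha hπ.gen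
    hπ.weil j h hneat ρ χ ω halt hnondeg hω hss' γ hχ hγ φ hφ

end Pool.Agent.Results.MP_c1bb77_ag.OneFrobeniusTowers
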